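import Mathlib

/-!
The least number of transformation matrices and transposed transformation matrices whose Boolean
sum is at least the matrix of the linear order on `n` points.
-/

namespace Pool.Agent.Results.MP_88b6d1_co.ExactValue

/-- `A` is the matrix of a transformation -/
def IsTrans {n : ℕ} (A : Matrix (Fin n) (Fin n) Bool) : Prop :=
  ∃ f : Fin n → Fin n, ∀ i j, A i j = true ↔ f i = j

/-- `A` is the transposed matrix of a transformation -/
def IsTransT {n : ℕ} (A : Matrix (Fin n) (Fin n) Bool) : Prop :=
  ∃ f : Fin n → Fin n, ∀ i j, A i j = true ↔ f j = i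

/-- `L_n` can be covered by `k` matrices, each a transformation or a transposed transformation -/
def Covers (n k : ℕ) : Prop :=
  ∃ A : Fin k → Matrix (Fin n) (Fin n) Bool, (∀ t, IsTrans (A t) ∨ IsTransT (A t)) ∧
    ∀ i j : Fin n, i ≤ j → ∃ t, A t i j = true

/-- the least such `k` -/
noncomputable def m (n : ℕ) : ℕ := sInf {k : ℕ | Covers n k}

theorem tri (d l : ℕ) : 2 * ∑ i ∈ Finset.range (d + 1 + l), (i - d) = l * (l + 1) := by
  induction l with
  | zero =>
    have : ∑ i ∈ Finset.range (d + 1 + 0), (i - d) = 0 := by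
      apply Finset.sum_eq_zero
      intro i hi
      rw [Finset.mem_range] at hi
      omega
    rw [this]
  | succ l ih =>
    rw [show d + 1 + (l + 1) = (d + 1 + l) + 1 by ring, Finset.sum_range_succ, Nat.mul_add, ih,
      show d + 1 + l - d = l + 1 by omega]
    ring

theorem sum_range_le (f : ℕ → ℕ) (hf : Monotone f) : ∀ (r : ℕ) (R : Finset ℕ), R.card = r →
    ∑ i ∈ Finset.range r, f i ≤ ∑ i ∈ R, f i := by
  intro r
  induction r with
  | zero => intro R _; simp
  | succ r ih =>
    intro R hR
    have hne : R.Nonempty := by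
      rw [← Finset.card_pos, hR]; omega
    have hmem := R.max'_mem hne
    have h1 : r ≤ R.max' hne := by
      have h2 : R ⊆ Finset.range (R.max' hne + 1) := by
        intro x hx
        rw [Finset.mem_range]
        have := R.le_max' x hx
        omega
      have h3 := Finset.card_le_card h2
      rw [hR, Finset.card_range] at h3
      omega
    have h4 := ih (R.erase (R.max' hne)) (by rw [Finset.card_erase_of_mem hmem, hR]; rfl)
    rw [Finset.sum_range_succ, ← Finset.sum_erase_add R _ hmem]
    exact Nat.add_le_add h4 (hf h1)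

/-- the number of comparable pairs in a product of two sets -/
theorem count_le (n : ℕ) (R C : Finset (Fin n)) :
    ((R ×ˢ C).filter (fun p => p.1 ≤ p.2)).card + ∑ i ∈ Finset.range R.card, (i - (n - C.card)) ≤
      R.card * C.card := by
  classical
  have h1 := Finset.card_filter_add_card_filter_not (s := R ×ˢ C) (fun p : Fin n × Fin n => p.1 ≤ p.2)
  rw [Finset.card_product] at h1
  rw [← h1]
  apply Nat.add_le_add_left
  have h2 : ((R ×ˢ C).filter (fun p : Fin n × Fin n => ¬ p.1 ≤ p.2)).card =
      ∑ i ∈ R, (C.filter (fun j => ¬ i ≤ j)).card := by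
    rw [Finset.card_filter, Finset.sum_product]
    apply Finset.sum_congr rfl
    intro i _
    rw [Finset.card_filter]
  rw [h2]
  have h3 : ∀ i ∈ R, (i : ℕ) - (n - C.card) ≤ (C.filter (fun j => ¬ i ≤ j)).card := by
    intro i _
    have h4 := Finset.card_filter_add_card_filter_not (s := C) (fun j => i ≤ j)
    have h5 : (C.filter (fun j => i ≤ j)).card ≤ n - i := by
      calc (C.filter (fun j => i ≤ j)).card ≤ (Finset.Ici i).card := by
            apply Finset.card_le_card
            intro j hj
            rw [Finset.mem_Ici]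
            exact (Finset.mem_filter.1 hj).2
        _ = n - i := by rw [Fin.card_Ici]
    omega
  refine le_trans ?_ (Finset.sum_le_sum h3)
  have h6 := sum_range_le (fun i => i - (n - C.card)) (fun a b hab => Nat.sub_le_sub_right hab _)
    R.card (R.map Fin.valEmbedding) (by rw [Finset.card_map])
  rw [Finset.sum_map] at h6
  exact h6

/-- Hall's theorem for this covering problem -/
theorem covers_of (n a b : ℕ) (h : ∀ r s, r ≤ n → s ≤ n →
    r * s ≤ a * r + b * s + ∑ i ∈ Finset.range r, (i - (n - s))) : Covers n (a + b) := by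
  classical
  let ι := {p : Fin n × Fin n // p.1 ≤ p.2}
  let α := (Fin n × Fin a) ⊕ (Fin n × Fin b)
  let t : ι → Finset α := fun p =>
    ((({p.1.1} : Finset (Fin n)) ×ˢ (Finset.univ : Finset (Fin a))).map Function.Embedding.inl) ∪
    ((({p.1.2} : Finset (Fin n)) ×ˢ (Finset.univ : Finset (Fin b))).map Function.Embedding.inr)
  have hall : ∀ s : Finset ι, s.card ≤ (s.biUnion t).card := by
    intro s
    let R := s.image (fun p => p.1.1)
    let C := s.image (fun p => p.1.2)
    have h1 : s.card ≤ ((R ×ˢ C).filter (fun p => p.1 ≤ p.2)).card := by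
      rw [← Finset.card_map (Function.Embedding.subtype _)]
      apply Finset.card_le_card
      intro p hp
      rw [Finset.mem_map] at hp
      obtain ⟨q, hq, rfl⟩ := hp
      rw [Finset.mem_filter, Finset.mem_product]
      exact ⟨⟨Finset.mem_image_of_mem _ hq, Finset.mem_image_of_mem _ hq⟩, q.2⟩
    have h2 := count_le n R C
    have h3 := h R.card C.card (by simpa using Finset.card_le_univ R) (by simpa using Finset.card_le_univ C)
    have h4 : ((R ×ˢ (Finset.univ : Finset (Fin a))).map Function.Embedding.inl) ∪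
        ((C ×ˢ (Finset.univ : Finset (Fin b))).map Function.Embedding.inr) ⊆ s.biUnion t := by
      intro x hx
      rw [Finset.mem_biUnion]
      rw [Finset.mem_union, Finset.mem_map, Finset.mem_map] at hx
      rcases hx with ⟨y, hy, rfl⟩ | ⟨y, hy, rfl⟩
      · rw [Finset.mem_product] at hy
        obtain ⟨q, hq, hqy⟩ := Finset.mem_image.1 hy.1
        refine ⟨q, hq, Finset.mem_union_left _ ?_⟩
        rw [Finset.mem_map]
        exact ⟨y, by simp [hqy], rfl⟩
      · rw [Finset.mem_product] at hy
        obtain ⟨q, hq, hqy⟩ := Finset.mem_image.1 hy.1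
        refine ⟨q, hq, Finset.mem_union_right _ ?_⟩
        rw [Finset.mem_map]
        exact ⟨y, by simp [hqy], rfl⟩
    have h5 := Finset.card_le_card h4
    rw [Finset.card_union_of_disjoint (by
      rw [Finset.disjoint_left]
      intro x hx hx'
      rw [Finset.mem_map] at hx hx'
      obtain ⟨y, -, rfl⟩ := hx
      obtain ⟨z, -, hz⟩ := hx'
      simp at hz), Finset.card_map, Finset.card_map, Finset.card_product, Finset.card_product,
      Finset.card_univ, Finset.card_univ, Fintype.card_fin, Fintype.card_fin] at h5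
    have e1 : R.card * a = a * R.card := Nat.mul_comm _ _
    have e2 : C.card * b = b * C.card := Nat.mul_comm _ _
    omega
  obtain ⟨f, hf, hft⟩ := (Finset.all_card_le_biUnion_card_iff_exists_injective t).1 hall
  -- the transformations
  let P : Fin a → Fin n → Fin n → Prop := fun u i j => ∃ hij : i ≤ j, f ⟨(i, j), hij⟩ = Sum.inl (i, u)
  let P' : Fin b → Fin n → Fin n → Prop := fun u i j => ∃ hij : i ≤ j, f ⟨(i, j), hij⟩ = Sum.inr (j, u)
  have hPu : ∀ u i j j', P u i j → P u i j' → j = j' := by
    rintro u i j j' ⟨h1, h2⟩ ⟨h3, h4⟩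
    have := hf (h2.trans h4.symm)
    exact (Prod.mk.inj (Subtype.mk.inj this)).2
  have hPu' : ∀ u i i' j, P' u i j → P' u i' j → i = i' := by
    rintro u i i' j ⟨h1, h2⟩ ⟨h3, h4⟩
    have := hf (h2.trans h4.symm)
    exact (Prod.mk.inj (Subtype.mk.inj this)).1
  let F : Fin a → Fin n → Fin n := fun u i => if hex : ∃ j, P u i j then hex.choose else i
  let G : Fin b → Fin n → Fin n := fun u j => if hex : ∃ i, P' u i j then hex.choose else j
  have hF : ∀ u i j, P u i j → F u i = j := by
    intro u i j hp
    have hex : ∃ j, P u i j := ⟨j, hp⟩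
    simp only [F, dif_pos hex]
    exact hPu u i _ _ hex.choose_spec hp
  have hG : ∀ u i j, P' u i j → G u j = i := by
    intro u i j hp
    have hex : ∃ i, P' u i j := ⟨i, hp⟩
    simp only [G, dif_pos hex]
    exact hPu' u _ _ j hex.choose_spec hp
  let AA : Fin (a + b) → Matrix (Fin n) (Fin n) Bool :=
    Fin.addCases (motive := fun _ => Matrix (Fin n) (Fin n) Bool)
      (fun u => Matrix.of (fun i j => decide (F u i = j)))
      (fun u => Matrix.of (fun i j => decide (G u j = i)))
  have hAl : ∀ u : Fin a, AA (Fin.castAdd b u) = Matrix.of (fun i j => decide (F u i = j)) :=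
    fun u => Fin.addCases_left u
  have hAr : ∀ u : Fin b, AA (Fin.natAdd a u) = Matrix.of (fun i j => decide (G u j = i)) :=
    fun u => Fin.addCases_right u
  refine ⟨AA, ?_, ?_⟩
  · intro u
    induction u using Fin.addCases with
    | left u =>
      left
      refine ⟨F u, fun i j => ?_⟩
      rw [hAl]
      simp
    | right u =>
      right
      refine ⟨G u, fun i j => ?_⟩
      rw [hAr]
      simp
  · intro i j hij
    have h1 := hft ⟨(i, j), hij⟩
    rw [Finset.mem_union, Finset.mem_map, Finset.mem_map] at h1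
    rcases h1 with ⟨⟨x, u⟩, hx, hxf⟩ | ⟨⟨x, u⟩, hx, hxf⟩
    · rw [Finset.mem_product, Finset.mem_singleton] at hx
      have hx1 : x = i := hx.1
      subst hx1
      refine ⟨Fin.castAdd b u, ?_⟩
      rw [hAl]
      have : F u x = j := hF u x j ⟨hij, hxf.symm⟩
      simp [this]
    · rw [Finset.mem_product, Finset.mem_singleton] at hx
      have hx1 : x = j := hx.1
      subst hx1
      refine ⟨Fin.natAdd a u, ?_⟩
      rw [hAr]
      have : G u x = i := hG u i x ⟨hij, hxf.symm⟩
      simp [this]

/-- counting in the first `r` rows and the last `r` columns -/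
theorem lower (n k r : ℕ) (hr : r ≤ n) (h : Covers n k) :
    r * r ≤ k * r + ∑ i ∈ Finset.range r, (i - (n - r)) := by
  classical
  obtain ⟨A, hA, hcov⟩ := h
  let R : Finset (Fin n) := Finset.univ.filter (fun i => i.val < r)
  let C : Finset (Fin n) := Finset.univ.filter (fun j => n - r ≤ j.val)
  have hR : R.card = r := by
    have h1 : R.map Fin.valEmbedding = Finset.range r := by
      ext x
      simp only [R, Finset.mem_map, Finset.mem_filter, Finset.mem_univ, true_and,
        Fin.valEmbedding_apply, Finset.mem_range]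
      constructor
      · rintro ⟨i, hi, rfl⟩; exact hi
      · intro hx; exact ⟨⟨x, by omega⟩, hx, rfl⟩
    rw [← Finset.card_map Fin.valEmbedding, h1, Finset.card_range]
  have hC : C.card = r := by
    have h1 : C.map Fin.valEmbedding = Finset.Ico (n - r) n := by
      ext x
      simp only [C, Finset.mem_map, Finset.mem_filter, Finset.mem_univ, true_and,
        Fin.valEmbedding_apply, Finset.mem_Ico]
      constructor
      · rintro ⟨i, hi, rfl⟩; exact ⟨hi, i.2⟩
      · rintro ⟨h1, h2⟩; exact ⟨⟨x, h2⟩, h1, rfl⟩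
    rw [← Finset.card_map Fin.valEmbedding, h1, Nat.card_Ico]
    omega
  let B : Finset (Fin n × Fin n) := (R ×ˢ C).filter (fun p => p.1 ≤ p.2)
  have hB1 : B.card ≤ k * r := by
    have hsub : B ⊆ (Finset.univ : Finset (Fin k)).biUnion (fun t => B.filter (fun p => A t p.1 p.2 = true)) := by
      intro p hp
      rw [Finset.mem_biUnion]
      obtain ⟨t, ht⟩ := hcov p.1 p.2 (Finset.mem_filter.1 hp).2
      exact ⟨t, Finset.mem_univ _, Finset.mem_filter.2 ⟨hp, ht⟩⟩
    refine le_trans (Finset.card_le_card hsub) ?_
    have h1 := Finset.card_biUnion_le_card_mul (Finset.univ : Finset (Fin k))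
      (fun t => B.filter (fun p => A t p.1 p.2 = true)) r ?_
    · simpa using h1
    · intro t _
      rcases hA t with ⟨f, hf⟩ | ⟨f, hf⟩
      · rw [← hR]
        apply Finset.card_le_card_of_injOn (fun p => p.1)
        · intro p hp
          exact (Finset.mem_product.1 (Finset.mem_filter.1 (Finset.mem_filter.1 hp).1).1).1
        · intro p hp q hq hpq
          have h1 := (hf _ _).1 (Finset.mem_filter.1 hp).2
          have h2 := (hf _ _).1 (Finset.mem_filter.1 hq).2
          simp only at hpq
          exact Prod.ext hpq (by rw [← h1, ← h2, hpq])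
      · rw [← hC]
        apply Finset.card_le_card_of_injOn (fun p => p.2)
        · intro p hp
          exact (Finset.mem_product.1 (Finset.mem_filter.1 (Finset.mem_filter.1 hp).1).1).2
        · intro p hp q hq hpq
          have h1 := (hf _ _).1 (Finset.mem_filter.1 hp).2
          have h2 := (hf _ _).1 (Finset.mem_filter.1 hq).2
          simp only at hpq
          exact Prod.ext (by rw [← h1, ← h2, hpq]) hpq
  have hB2 : r * r ≤ B.card + ∑ i ∈ Finset.range r, (i - (n - r)) := by
    have h1 := Finset.card_filter_add_card_filter_not (s := R ×ˢ C) (fun p : Fin n × Fin n => p.1 ≤ p.2)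
    rw [Finset.card_product, hR, hC] at h1
    rw [← h1]
    apply Nat.add_le_add_left
    have h2 : ((R ×ˢ C).filter (fun p : Fin n × Fin n => ¬ p.1 ≤ p.2)).card =
        ∑ i ∈ R, (C.filter (fun j => ¬ i ≤ j)).card := by
      rw [Finset.card_filter, Finset.sum_product]
      apply Finset.sum_congr rfl
      intro i _
      rw [Finset.card_filter]
    rw [h2]
    have h3 : ∀ i ∈ R, (C.filter (fun j => ¬ i ≤ j)).card ≤ (i : ℕ) - (n - r) := by
      intro i _
      rw [← Finset.card_map Fin.valEmbedding, ← Nat.card_Ico]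
      apply Finset.card_le_card
      intro x hx
      rw [Finset.mem_map] at hx
      obtain ⟨j, hj, rfl⟩ := hx
      rw [Finset.mem_filter] at hj
      have h4 : n - r ≤ j.val := (Finset.mem_filter.1 hj.1).2
      rw [Finset.mem_Ico]
      refine ⟨h4, ?_⟩
      exact not_le.1 hj.2
    refine le_trans (Finset.sum_le_sum h3) ?_
    have h5 : R.map Fin.valEmbedding = Finset.range r := by
      ext x
      simp only [R, Finset.mem_map, Finset.mem_filter, Finset.mem_univ, true_and,
        Fin.valEmbedding_apply, Finset.mem_range]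
      constructor
      · rintro ⟨i, hi, rfl⟩; exact hi
      · intro hx; exact ⟨⟨x, by omega⟩, hx, rfl⟩
    rw [← h5, Finset.sum_map]
    exact le_rfl
  omega

/-- the numerical inequality -/
theorem numeric (n c : ℕ) (hn : 1 ≤ n) (hc : c * c ≤ 2 * n ^ 2 + 2 * n + 1) (r s : ℕ) (hr : r ≤ n)
    (hs : s ≤ n) (k a b : ℕ) (hk : k + c = 2 * n + 1) (ha : a = k / 2) (hb : b = k - k / 2) :
    r * s ≤ a * r + b * s + ∑ i ∈ Finset.range r, (i - (n - s)) := by
  have hab : a + b = k := by omega
  rcases Nat.lt_or_ge (r + s) (n + 1) with hlt | hge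
  · -- small case: r + s ≤ n
    have h2k : n + 1 ≤ 2 * k := by
      by_contra hcon
      have h1 : 2 * c ≥ 3 * n + 2 := by omega
      have h2 : (3 * n + 2) * (3 * n + 2) ≤ (2 * c) * (2 * c) := Nat.mul_le_mul h1 h1
      nlinarith
    have key : r * s ≤ a * r + b * s := by
      by_cases h1 : r ≤ b
      · have : r * s ≤ b * s := Nat.mul_le_mul_right _ h1
        omega
      by_cases h2 : s ≤ a
      · have : r * s ≤ r * a := Nat.mul_le_mul_left _ h2
        have e : r * a = a * r := Nat.mul_comm _ _
        omega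
      push Not at h1 h2
      obtain ⟨x, hx⟩ := Nat.exists_eq_add_of_lt h1
      obtain ⟨y, hy⟩ := Nat.exists_eq_add_of_lt h2
      -- r = b + x + 1, s = a + y + 1
      have h3 : (x + 1) + (y + 1) + k ≤ n := by omega
      have h4 : (x + 1) * (y + 1) ≤ a * b := by
        have h5 : (x + 1) + (y + 1) + 1 ≤ a + b := by omega
        have h6 : b = a ∨ b = a + 1 := by omega
        rcases h6 with h6 | h6
        · subst h6
          nlinarith [sq_nonneg ((x : ℤ) - y), Nat.mul_le_mul h5 h5]
        · subst h6
          have h7 : (x + 1) + (y + 1) ≤ 2 * a := by omega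
          nlinarith [sq_nonneg ((x : ℤ) - y), Nat.mul_le_mul h7 h7]
      rw [hx, hy]
      nlinarith
    omega
  · -- large case
    obtain ⟨l, hl⟩ := Nat.exists_eq_add_of_le hge
    have h1 : r = (n - s) + 1 + l := by omega
    have h2 := tri (n - s) l
    rw [← h1] at h2
    have hz : (l : ℤ) = r + s - n - 1 := by omega
    have hgoal : 2 * (r * s) ≤ 2 * (a * r + b * s) + l * (l + 1) := by
      -- work in the integers
      have hkz : (k : ℤ) = 2 * n + 1 - c := by omega
      have hcz : (c : ℤ) * c ≤ 2 * n ^ 2 + 2 * n + 1 := by exact_mod_cast hc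
      zify
      rcases Nat.even_or_odd' k with ⟨q, hq | hq⟩
      · have e1 : (a : ℤ) = q := by omega
        have e2 : (b : ℤ) = q := by omega
        have e3 : (k : ℤ) = 2 * q := by omega
        have hne : (r + s : ℤ) - c ≠ 0 ∨ (s : ℤ) - r ≠ 0 := by
          by_contra hcon
          push Not at hcon
          omega
        have hpos : 1 ≤ ((r : ℤ) + s - c) ^ 2 + ((s : ℤ) - r) ^ 2 := by
          rcases hne with h | h
          · have : 1 ≤ ((r : ℤ) + s - c) ^ 2 := by
              have := sq_nonneg ((r : ℤ) + s - c)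
              have h' : ((r : ℤ) + s - c) ^ 2 ≠ 0 := pow_ne_zero 2 h
              omega
            have := sq_nonneg ((s : ℤ) - r)
            omega
          · have : 1 ≤ ((s : ℤ) - r) ^ 2 := by
              have := sq_nonneg ((s : ℤ) - r)
              have h' : ((s : ℤ) - r) ^ 2 ≠ 0 := pow_ne_zero 2 h
              omega
            have := sq_nonneg ((r : ℤ) + s - c)
            omega
        rw [hz, e1, e2]
        have e4 : (2 : ℤ) * q = 2 * n + 1 - c := by omega
        have e5 : (2 : ℤ) * (q * r + q * s) = (2 * n + 1 - c) * (r + s) := by rw [← e4]; ring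
        rw [e5]
        nlinarith
      · have e1 : (a : ℤ) = q := by omega
        have e2 : (b : ℤ) = q + 1 := by omega
        have e3 : (k : ℤ) = 2 * q + 1 := by omega
        obtain ⟨c', hc'⟩ : ∃ c', c = 2 * c' := ⟨n - q, by omega⟩
        have hcz2 : (c : ℤ) * c ≤ 2 * n ^ 2 + 2 * n := by
          rw [hc'] at hcz ⊢
          push_cast at hcz ⊢
          have : (2 * (c' : ℤ)) * (2 * c') = 2 * (2 * (c' * c')) := by ring
          have h3 : (2 : ℤ) * n ^ 2 + 2 * n + 1 = 2 * (n ^ 2 + n) + 1 := by ring
          have h4 : (2 : ℤ) * n ^ 2 + 2 * n = 2 * (n ^ 2 + n) := by ring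
          rw [this, h3] at hcz
          rw [this, h4]
          omega
        have hne : (r + s : ℤ) - c ≠ 0 ∨ (s : ℤ) - r + 1 ≠ 0 := by
          by_contra hcon
          push Not at hcon
          omega
        have hpos : 1 ≤ ((r : ℤ) + s - c) ^ 2 + ((s : ℤ) - r + 1) ^ 2 := by
          rcases hne with h | h
          · have : 1 ≤ ((r : ℤ) + s - c) ^ 2 := by
              have := sq_nonneg ((r : ℤ) + s - c)
              have h' : ((r : ℤ) + s - c) ^ 2 ≠ 0 := pow_ne_zero 2 h
              omega
            have := sq_nonneg ((s : ℤ) - r + 1)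
            omega
          · have : 1 ≤ ((s : ℤ) - r + 1) ^ 2 := by
              have := sq_nonneg ((s : ℤ) - r + 1)
              have h' : ((s : ℤ) - r + 1) ^ 2 ≠ 0 := pow_ne_zero 2 h
              omega
            have := sq_nonneg ((r : ℤ) + s - c)
            omega
        rw [hz, e1, e2]
        have e4 : (2 : ℤ) * q = 2 * n - c := by omega
        have e5 : (2 : ℤ) * (q * r + (q + 1) * s) = (2 * n - c) * (r + s) + 2 * s := by rw [← e4]; ring
        rw [e5]
        nlinarith
    omega

theorem covers_mono_sInf (n : ℕ) (h : ∃ k, Covers n k) : Covers n (m n) := Nat.sInf_mem h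

theorem result : ∀ n : ℕ, 1 ≤ n → m n = 2 * n + 1 - Nat.sqrt (2 * n ^ 2 + 2 * n + 1) := by
  intro n hn
  set v := 2 * n ^ 2 + 2 * n + 1 with hv
  set c := Nat.sqrt v with hc
  have hc1 : c * c ≤ v := Nat.sqrt_le v
  have hc2 : v < (c + 1) * (c + 1) := Nat.lt_succ_sqrt v
  have hcn : n + 1 ≤ c := by
    rw [hc, Nat.le_sqrt]
    nlinarith
  have hc3 : c ≤ 2 * n + 1 := by
    by_contra hcon
    push Not at hcon
    have : (2 * n + 2) * (2 * n + 2) ≤ c * c := Nat.mul_le_mul hcon hcon
    nlinarith
  obtain ⟨k, hk⟩ : ∃ k, k + c = 2 * n + 1 := ⟨2 * n + 1 - c, by omega⟩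
  have hk' : 2 * n + 1 - c = k := by omega
  rw [hk']
  have hcov : Covers n k := by
    have h1 := covers_of n (k / 2) (k - k / 2) (fun r s hr hs =>
      numeric n c hn hc1 r s hr hs k _ _ hk rfl rfl)
    have h2 : k / 2 + (k - k / 2) = k := by omega
    rwa [h2] at h1
  apply le_antisymm
  · exact Nat.sInf_le hcov
  · have h1 := covers_mono_sInf n ⟨k, hcov⟩
    set k' := m n
    by_contra hlt
    push Not at hlt
    obtain ⟨c', hc'⟩ : ∃ c', k' + c' = 2 * n + 1 := ⟨2 * n + 1 - k', by omega⟩
    have hcc : c + 1 ≤ c' := by omega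
    have hv2 : v < c' * c' := lt_of_lt_of_le hc2 (Nat.mul_le_mul hcc hcc)
    obtain ⟨r, hr⟩ : ∃ r, r = c' / 2 := ⟨_, rfl⟩
    have hrn : r ≤ n := by omega
    have h2 := lower n k' r hrn h1
    obtain ⟨l, hl⟩ : ∃ l, 2 * r = n + 1 + l := ⟨2 * r - (n + 1), by omega⟩
    have h3 := tri (n - r) l
    have h4 : n - r + 1 + l = r := by omega
    rw [h4] at h3
    have h5 : 2 * (r * r) ≤ 2 * (k' * r) + l * (l + 1) := by omega
    have hzl : (l : ℤ) = 2 * r - n - 1 := by omega
    have hzk : (k' : ℤ) = 2 * n + 1 - c' := by omega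
    zify at h5 hv2
    rw [hzl, hzk] at h5
    rw [hv] at hv2
    push_cast at hv2
    rcases Nat.even_or_odd' c' with ⟨q, hq | hq⟩
    · have : r = q := by omega
      subst this
      rw [hq] at h5 hv2
      push_cast at h5 hv2
      nlinarith
    · have : r = q := by omega
      subst this
      rw [hq] at h5 hv2
      push_cast at h5 hv2
      nlinarith

end Pool.Agent.Results.MP_88b6d1_co.ExactValue
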